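import Pool.Agent.X255.RH.Gam2
import Pool.Agent.X255.RH.Mea3

/-!
# Lower bounds for polynomials in `Γ (y_i (z))`, `y_i` algebraic functions, at almost all algebraic numbers

Let `y_1, …, y_n` be nonconstant algebraic functions, analytic on a connected open set `V`, without values
`0, -1, -2, …`, such that `y_i` is not of the form `a y_j + b` with rational numbers `a`, `b` for `i ≠ j`; these are
the conditions of the problem for the numbers `y_i (z)`. For 100% of the integral polynomials of degree `g`, ordered by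
the maximum `T` of the absolute values of the coefficients, we prove lower bounds `|P| ≥ T ^ (-B) |p|` for polynomials
`P` of bounded degree in the numbers `Γ (y_i (z))`, `z` ALL roots of the polynomial in `V` (at distance at least
`1 / (k + 1)` from the complement), where `p` is any coefficient of `P`. The coefficients are combinations of
arbitrary complex numbers with integral coefficients of size at most `T ^ k`, and `B` depends only on `k` and the
functions. We also show that these numbers satisfy no relation whose degree, and the degree of whose coefficient field, is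
at most `ω (T)`, and whose coefficients are of size at most `T ^ ω (T)`, where `ω (T) → ∞`. Our hand-in `AlmostAllArguments`
has the second statement for polynomials `y_i`.

Proof: `Pool.Agent.X255.NP` and `Pool.Agent.Y890.MV` (nonstandard versions of the Bombieri-Pila method), the independence of
the functions (`Pool.Agent.W253.GF.gtd`), and `Pool.Agent.X255.RH` (independence of functions of different variables;
almost no integral polynomial has close roots).
-/

set_option autoImplicit false

open Polynomial Filter NumberField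
open scoped Classical

namespace Pool.Agent.Results.MP_26ad15_nt.AlgebraicFunctionsMeasure

/-- an algebraic function on `V` -/
def Algebraic (V : Set ℂ) (f : ℂ → ℂ) : Prop := ∃ Q : ℂ[X][X], Q ≠ 0 ∧ ∀ z ∈ V, Q.evalEval z (f z) = 0

/-- The conditions on the arguments. -/
structure Arguments (V : Set ℂ) {n : ℕ} (y : Fin n → ℂ → ℂ) : Prop where
  isOpen : IsOpen V
  isPreconnected : IsPreconnected V
  nonempty : V.Nonempty
  analytic : ∀ i, AnalyticOnNhd ℂ (y i) V
  algebraic : ∀ i, Algebraic V (y i)
  no_pole : ∀ i, ∀ z ∈ V, ∀ m : ℕ, y i z ≠ -m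
  nonconstant : ∀ i, ∀ v : ℂ, ¬ ∀ z ∈ V, y i z = v
  unrelated : ∀ i j, i ≠ j → ∀ a b : ℚ, ¬ ∀ z ∈ V, y i z = a * y j z + b

/-- the polynomial `a_g X ^ g + … + a_0` -/
noncomputable def poly {g : ℕ} (a : Fin (g + 1) → ℤ) : ℂ[X] := ∑ i, C (a i : ℂ) * X ^ (i : ℕ)

/-- the roots of the polynomial in the set `V` -/
noncomputable def rootsIn (V : Set ℂ) {g : ℕ} (a : Fin (g + 1) → ℤ) : Finset ℂ :=
  (poly a).roots.toFinset.filter fun z => z ∈ V

/-- The numbers `x q`, `q ∈ Q`, satisfy no relation of degree at most `k` in each of them with coefficients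
`∑ ξ b * c b`, `b < k`, where the `c b` are integers of a number field of degree at most `k`, all of whose conjugates
are of absolute value at most `T ^ k`, except the relations all of whose coefficients vanish. -/
def Unrelated {Q : Type} [Fintype Q] [DecidableEq Q] (ξ : ℕ → ℂ) (k : ℕ) (T : ℝ) (x : Q → ℂ) : Prop :=
  ∀ (F : Type) [Field F] [NumberField F], Module.finrank ℚ F ≤ k → ∀ (io : F →+* ℂ)
    (c : (Q → Fin (k + 1)) → Fin k → 𝓞 F), (∀ l b (φ : F →+* ℂ), ‖φ (c l b : F)‖ ≤ T ^ k) →
    ∑ l, (∑ b : Fin k, ξ b * io (c l b : F)) * ∏ q, x q ^ (l q : ℕ) = 0 → ∀ l, ∑ b : Fin k, ξ b * io (c l b : F) = 0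

/-- Every polynomial `P` of degree at most `k` in each of the numbers `x q`, with coefficients `∑ ξ b * c b`, `b < k`,
where the `c b` are rational integers of absolute value at most `T ^ k`, satisfies `|P (x)| ≥ T ^ (-B) |p|` for each of
its coefficients `p`. -/
def Measure {Q : Type} [Fintype Q] [DecidableEq Q] (ξ : ℕ → ℂ) (k : ℕ) (B T : ℝ) (x : Q → ℂ) : Prop :=
  ∀ c : (Q → Fin (k + 1)) → Fin k → ℤ, (∀ l b, |(c l b : ℝ)| ≤ T ^ k) → ∀ l₀,
    T ^ (-B) * ‖∑ b : Fin k, ξ b * (c l₀ b : ℂ)‖ ≤
      ‖∑ l, (∑ b : Fin k, ξ b * (c l b : ℂ)) * ∏ q, x q ^ (l q : ℕ)‖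

/-- the `a` with `|a_i| ≤ T` -/
noncomputable def box (g T : ℕ) : Finset (Fin (g + 1) → ℤ) := Fintype.piFinset fun _ => Finset.Icc (-(T : ℤ)) T

/-- the points whose distance to the complement of `V` is at least `1 / (k + 1)` -/
def region (V : Set ℂ) (k : ℕ) : Set ℂ := {z | Metric.ball z (1 / ((k : ℝ) + 1)) ⊆ V}

/-- the numbers `Γ (y_i (z))`, `z` all roots of `a` in the set `K` -/
noncomputable def numbers {g n : ℕ} (K : Set ℂ) (y : Fin n → ℂ → ℂ) (a : Fin (g + 1) → ℤ)
    (x : {z // z ∈ rootsIn K a} × Fin n) : ℂ :=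
  Complex.Gamma (y x.2 x.1)

/-- `a` is of degree `g`, with simple roots, and the numbers at the roots in `region V k` are unrelated -/
def Good {g n : ℕ} (V : Set ℂ) (y : Fin n → ℂ → ℂ) (ξ : ℕ → ℂ) (k : ℕ) (T : ℝ) (a : Fin (g + 1) → ℤ) : Prop :=
  a (Fin.last g) ≠ 0 ∧ (poly a).Separable ∧ Unrelated ξ k T (numbers (region V k) y a)

/-- `a` is of degree `g`, with simple roots, and the numbers at the roots in `region V k` satisfy the lower bounds -/
def GoodM {g n : ℕ} (V : Set ℂ) (y : Fin n → ℂ → ℂ) (ξ : ℕ → ℂ) (k : ℕ) (B T : ℝ) (a : Fin (g + 1) → ℤ) : Prop :=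
  a (Fin.last g) ≠ 0 ∧ (poly a).Separable ∧ Measure ξ k B T (numbers (region V k) y a)

/-- `a` is of degree `g`, its roots are simple, of absolute value at most `R`, at distance at least `η` from each other,
and the roots in `V` are at distance at least `η` from the complement of `V` -/
def Position (V : Set ℂ) (R η : ℝ) {g : ℕ} (a : Fin (g + 1) → ℤ) : Prop :=
  a (Fin.last g) ≠ 0 ∧ (poly a).Separable ∧ ∀ z, (poly a).eval z = 0 → ‖z‖ ≤ R ∧
    (∀ w, (poly a).eval w = 0 → w ≠ z → η ≤ ‖z - w‖) ∧ (z ∈ V → Metric.ball z η ⊆ V)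

theorem indep {n : ℕ} {V : Set ℂ} {y : Fin n → ℂ → ℂ} (hy : Arguments V y) :
    (∀ w, AnalyticOnNhd ℂ (fun z => Complex.Gamma (y w z)) V) ∧
      Pool.Agent.X255.RH.Indep V (fun w z => Complex.Gamma (y w z)) := by
  refine ⟨fun w z hz => ?_, Pool.Agent.X255.RH.gam_indep' hy.isOpen hy.isPreconnected hy.nonempty y hy.analytic
    hy.algebraic hy.nonconstant hy.unrelated⟩
  have h0 : AnalyticAt ℂ (fun s => (Complex.Gamma s)⁻¹) (y w z) :=
    Complex.differentiable_one_div_Gamma.analyticAt _
  have h1 := h0.inv (inv_ne_zero (Complex.Gamma_ne_zero fun m hm => hy.no_pole w z hz m hm))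
  have h2 : (fun s => (Complex.Gamma s)⁻¹)⁻¹ = Complex.Gamma := by
    funext x
    simp
  rw [h2] at h1
  exact AnalyticAt.comp' (f := y w) (g := Complex.Gamma) h1 (hy.analytic w z hz)

/-- **Theorem.** Let `g ≥ 1` and let `y_1, …, y_n` be as in `Arguments`.
(1) For every sequence `ξ` there is a monotone `ω`, `ω(T) → ∞`, such that the proportion of the polynomials with
`|a_i| ≤ T` which are not `Good` with `k = ω(T)` is at most `1 / ω(T)`.
(2) For every `k ≥ 1` there are `B` and `T₀` such that for `T ≥ T₀` and all `ξ` (which may depend on `T`) the proportion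
of the polynomials with `|a_i| ≤ T` which are not `GoodM` is at most `1 / k`.
(3) For fixed `k ≥ 1`, `R`, `η > 0` and `ε > 0` there are `B`, `C` such that for all `ξ` the lower bounds
`Measure ξ k B T` for the numbers at the roots in `V` hold for all but `C T ^ (g + ε)` of the polynomials with
`|a_i| ≤ T` whose roots are in the compact position `Position V R η` (there are about `(2 T) ^ (g + 1)` polynomials).
 -/
theorem result (g n : ℕ) (hg : 0 < g) (V : Set ℂ) (y : Fin n → ℂ → ℂ) (hy : Arguments V y) :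
    (∀ ξ : ℕ → ℂ, ∃ ω : ℕ → ℕ, Tendsto ω atTop atTop ∧ Monotone ω ∧ ∀ T,
      ω T * ((box g T).filter fun a => ¬ Good V y ξ (ω T) T a).card ≤ (box g T).card) ∧
    (∀ k : ℕ, 1 ≤ k → ∃ (B : ℝ) (T₀ : ℕ), ∀ T : ℕ, T₀ ≤ T → ∀ ξ : ℕ → ℂ,
      (k : ℝ) * ((box g T).filter fun a => ¬ GoodM V y ξ k B T a).card ≤ (box g T).card) ∧
    (∀ (k : ℕ) (R η ε : ℝ), 1 ≤ k → 0 < η → 0 < ε → ∃ B C : ℝ, ∀ T : ℕ, 1 ≤ T → ∀ ξ : ℕ → ℂ,
      (((box g T).filter fun a => Position V R η a ∧ ¬ Measure ξ k B T (numbers V y a)).card : ℝ) ≤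
        C * (T : ℝ) ^ ((g : ℝ) + ε)) := by
  have hop : IsOpen V := hy.isOpen
  have hpre : IsPreconnected V := hy.isPreconnected
  obtain ⟨han, hind⟩ := indep hy

  refine ⟨fun ξ => ?_, fun k hk => ?_, fun k R η ε hk hη hε => ?_⟩
  · exact Pool.Agent.X255.RH.main_all (g := g) hg hpre hop (region V) (Pool.Agent.X255.RH.tame_deep V) han hind ξ
  · exact Pool.Agent.X255.RH.mea_all (g := g) hg hpre hop (Pool.Agent.X255.RH.tame_deep V k) han hind k hk
  · exact Pool.Agent.X255.RH.mea_eps (g := g) hg hpre hop han hind V k R η ε hη hε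

end Pool.Agent.Results.MP_26ad15_nt.AlgebraicFunctionsMeasure
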