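import Pool.Agent.X255.RH.Gam

/-!
# Values of the Gamma function at polynomials in almost all algebraic numbers, jointly for all conjugates

Let `y_1, …, y_n` be nonconstant complex polynomials such that `y_i` is not in `ℚ y_j + ℚ` for `i ≠ j`, for instance
`y_i (z) = α_i z`, `α_i` pairwise linearly independent over `ℚ`. The Schanuel type conjecture for `Γ`, in its relative
form, predicts that the numbers `Γ (y_i (z))` are algebraically independent for general `z`. We prove for 100% of the
integral polynomials of degree `g`, ordered by the maximum `T` of the absolute values of the coefficients, that the `n g`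
numbers `Γ (y_i (z))`, `z` all roots of the polynomial, satisfy no relation whose degree, and the degree of whose
coefficient field, is at most `ω (T)`, and whose coefficients are of size at most `T ^ ω (T)`, where `ω (T) → ∞`; the
coefficients may also contain arbitrary fixed complex numbers `ξ_b`, for instance monomials in the coefficients of the
`y_i`.

Proof: `Pool.Agent.X255.NP` (the norm to `ℚ` of a relation over the field generated by all roots, a nonstandard version of
the Bombieri-Pila method), the algebraic independence of the functions (`Pool.Agent.W253.GF`, `Pool.Agent.W175.GF`), and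
`Pool.Agent.X255.RH` (independence of functions of different variables; almost no integral polynomial has close roots or
roots close to a given point).
-/

set_option autoImplicit false

open Polynomial Filter NumberField
open scoped Classical

namespace Pool.Agent.Results.MP_26ad15_nt.AlmostAllArguments

/-- the numbers `Γ (y_i (z))` -/
noncomputable def value {n : ℕ} (y : Fin n → ℂ[X]) (z : ℂ) (i : Fin n) : ℂ := Complex.Gamma ((y i).eval z)

/-- the complement of the set of the poles of the functions `Γ (y_i (z))` -/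
def off {n : ℕ} (y : Fin n → ℂ[X]) : Set ℂ := {z | ∃ i, ∃ m : ℕ, (y i).eval z = -m}ᶜ

/-- the polynomial `a_g X ^ g + … + a_0` -/
noncomputable def poly {g : ℕ} (a : Fin (g + 1) → ℤ) : ℂ[X] := ∑ i, C (a i : ℂ) * X ^ (i : ℕ)

/-- the roots of the polynomial in the set `V` -/
noncomputable def rootsIn (V : Set ℂ) {g : ℕ} (a : Fin (g + 1) → ℤ) : Finset ℂ :=
  (poly a).roots.toFinset.filter fun z => z ∈ V

/-- The numbers `x q`, `q ∈ Q`, satisfy no relation of degree at most `k` in each of them with coefficients
`∑ ξ b * c b`, `b < k`, where the `c b` are integers of a number field of degree at most `k`, all of whose conjugates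
are of absolute value at most `T ^ k`, except the relations all of whose coefficients vanish. -/
def Unrelated {Q : Type} [Fintype Q] [DecidableEq Q] (ξ : ℕ → ℂ) (k : ℕ) (T : ℝ) (x : Q → ℂ) : Prop :=
  ∀ (F : Type) [Field F] [NumberField F], Module.finrank ℚ F ≤ k → ∀ (io : F →+* ℂ)
    (c : (Q → Fin (k + 1)) → Fin k → 𝓞 F), (∀ l b (φ : F →+* ℂ), ‖φ (c l b : F)‖ ≤ T ^ k) →
    ∑ l, (∑ b : Fin k, ξ b * io (c l b : F)) * ∏ q, x q ^ (l q : ℕ) = 0 → ∀ l, ∑ b : Fin k, ξ b * io (c l b : F) = 0

/-- the `a` with `|a_i| ≤ T` -/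
noncomputable def box (g T : ℕ) : Finset (Fin (g + 1) → ℤ) := Fintype.piFinset fun _ => Finset.Icc (-(T : ℤ)) T

/-- the numbers `Γ (y_i (z))`, `z` all roots of `a` which are not poles, are unrelated up to complexity `k` -/
def Free {g n : ℕ} (y : Fin n → ℂ[X]) (ξ : ℕ → ℂ) (k : ℕ) (T : ℝ) (a : Fin (g + 1) → ℤ) : Prop :=
  Unrelated ξ k T fun q : {z // z ∈ rootsIn (off y) a} × Fin n => value y q.1 q.2

/-- `a` is of degree `g`, with simple roots, and `Free` -/
def Good {g n : ℕ} (y : Fin n → ℂ[X]) (ξ : ℕ → ℂ) (k : ℕ) (T : ℝ) (a : Fin (g + 1) → ℤ) : Prop :=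
  a (Fin.last g) ≠ 0 ∧ (poly a).Separable ∧ Free y ξ k T a

/-- `a` is of degree `g`, its roots are simple, of absolute value at most `R`, at distance at least `η` from each other,
and the roots in `V` are at distance at least `η` from the complement of `V` -/
def Position (V : Set ℂ) (R η : ℝ) {g : ℕ} (a : Fin (g + 1) → ℤ) : Prop :=
  a (Fin.last g) ≠ 0 ∧ (poly a).Separable ∧ ∀ z, (poly a).eval z = 0 → ‖z‖ ≤ R ∧
    (∀ w, (poly a).eval w = 0 → w ≠ z → η ≤ ‖z - w‖) ∧ (z ∈ V → Metric.ball z η ⊆ V)


/-- **Theorem.** Let `g ≥ 1`, `y_1, …, y_n` nonconstant complex polynomials with `y_i ∉ ℚ y_j + ℚ` for `i ≠ j`, and let `ξ` be a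
sequence of complex numbers.
(1) There is a monotone `ω`, `ω(T) → ∞`, such that the proportion of the polynomials with `|a_i| ≤ T` which are not
`Good` with `k = ω(T)` is at most `1 / ω(T)`.
(2) For fixed `k`, `R`, `η > 0` and `ε > 0`, all but `C T ^ (g + ε)` of the polynomials with `|a_i| ≤ T` whose roots
are in the compact position `Position (off y) R η` are `Free` (there are about `(2 T) ^ (g + 1)` polynomials). -/
theorem result (g n : ℕ) (hg : 0 < g) (y : Fin n → ℂ[X]) (hy : ∀ i, ∀ v, y i ≠ C v)
    (hH : ∀ i j, i ≠ j → ∀ p q : ℚ, y i ≠ C (p : ℂ) * y j + C (q : ℂ)) (ξ : ℕ → ℂ) :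
    (∃ ω : ℕ → ℕ, Tendsto ω atTop atTop ∧ Monotone ω ∧ ∀ T,
      ω T * ((box g T).filter fun a => ¬ Good y ξ (ω T) T a).card ≤ (box g T).card) ∧
    ∀ (k : ℕ) (R η ε : ℝ), 0 < η → 0 < ε → ∃ C : ℝ, ∀ T : ℕ, 1 ≤ T →
      (((box g T).filter fun a => Position (off y) R η a ∧ ¬ Free y ξ k T a).card : ℝ) ≤
        C * (T : ℝ) ^ ((g : ℝ) + ε) := by
  have hfin := Pool.Agent.X255.RH.offP_fin y hy
  have hpre : IsPreconnected (off y) := Pool.Agent.X255.RH.preconnected_of_discrete hfin
  have hop : IsOpen (off y) := Pool.Agent.X255.RH.open_of_discrete hfin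
  have htame : Pool.Agent.X255.RH.Tame (off y) (off y) := Pool.Agent.X255.RH.tame_of_discrete hfin
  have han : ∀ w : Fin n, AnalyticOnNhd ℂ (fun z => value y z w) (off y) := fun w =>
    Pool.Agent.X255.RH.gam_an y w
  have hind : Pool.Agent.X255.RH.Indep (off y) (fun (w : Fin n) z => value y z w) :=
    Pool.Agent.X255.RH.gam_indep y hy hH
  have h1 := Pool.Agent.X255.RH.main_all (g := g) hg hpre hop (fun _ => (off y)) (fun _ => htame) han hind ξ
  refine ⟨h1, fun k R η ε hη hε => ?_⟩
  have h2 := Pool.Agent.X255.RH.main_eps (g := g) hg hpre hop han hind (off y) ξ k R η ε hη hε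
  exact h2

end Pool.Agent.Results.MP_26ad15_nt.AlmostAllArguments
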