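import Pool.Agent.X39.Near.Rel
import Pool.Agent.Results.MP_26ad15_nt.AlgebraicCurves

/-!
# Values of the Gamma function at the approximations to ALL complex numbers outside a set of dimension zero

Let `y_1, …, y_p` be algebraic functions on the open set `Ω`, none of them constant or in `ℚ y_j + ℚ` for
another one, let `u_1, …, u_q, w` be polynomials and `ξ_1, …, ξ_g` complex numbers. Outside ONE set of
complex numbers `x` of Hausdorff dimension `0`, for all number fields `F ⊂ ℂ`, all `ω > 0`, `d` and `A`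
there are `B` and `T₁` such that for all `T ≥ T₁` and ALL `t ∈ F` of height at most `T` with
`|t - x| ≤ T ^ (-ω)` the numbers `Γ(y_1(t)), …, Γ(y_p(t))` satisfy no relation of degree at most `d` with
coefficients which are polynomials of degree at most `d` in the `u_k(t) / w(t)` and the `ξ_i`, with
coefficients in `F` of height at most `T ^ A`, not even up to `T ^ (-B)`. In particular this holds for the
convergents of all irrational real numbers in `Ω` outside this set, from some point on.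
-/

set_option autoImplicit false

open MeasureTheory NumberField

namespace Pool.Agent.Results.MP_26ad15_nt.ApproximationsOfAllNumbers

open Pool.Agent.X39.Near (Size)
open AlgebraicCurves (coefficient)

/-- There is a polynomial `P` of degree at most `d` in each variable, whose coefficients are values of
polynomials of degree at most `d` in each variable, in the numbers `u_k(t) / w(t)` and `ξ_i`, with
coefficients in the integers of `F` all of whose conjugates are at most `T ^ A`, such that the value of `P`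
at the numbers `Γ(y_i(t))` is at most `T ^ (-B)` times the absolute value of some nonzero coefficient. -/
def Dependent {p q g : ℕ} (y : Fin p → ℂ → ℂ) (u : Fin q → Polynomial ℂ) (w : Polynomial ℂ)
    (ξ : Fin g → ℂ) (F : Type) [Field F] [NumberField F] (ι : F →+* ℂ) (d : ℕ) (A B T : ℝ) (t : F) :
    Prop :=
  ∃ P : MvPolynomial (Fin 1 × Fin p) (MvPolynomial ((Fin 1 × Fin q) ⊕ Fin g) (𝓞 F)),
    (∀ x, P.degreeOf x ≤ d) ∧ (∀ e v, (P.coeff e).degreeOf v ≤ d) ∧
    (∀ e s (φ : F →+* ℂ), ‖φ ((P.coeff e).coeff s : 𝓞 F)‖ ≤ T ^ A) ∧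
    ∃ e₀, coefficient F ι (fun _ => u) (fun _ => w) ξ (fun _ => t) (P.coeff e₀) ≠ 0 ∧
      ‖MvPolynomial.eval₂ (coefficient F ι (fun _ => u) (fun _ => w) ξ (fun _ => t))
        (fun x => Complex.Gamma (y x.2 (ι t))) P‖ ≤
        T ^ (-B) * ‖coefficient F ι (fun _ => u) (fun _ => w) ξ (fun _ => t) (P.coeff e₀)‖

lemma degreeOf_map {σ R S : Type} [CommSemiring R] [CommSemiring S] (f : R →+* S) (P : MvPolynomial σ R)
    (x : σ) : (MvPolynomial.map f P).degreeOf x ≤ P.degreeOf x := by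
  classical
  rw [MvPolynomial.degreeOf_def, MvPolynomial.degreeOf_def]
  exact Multiset.count_le_of_le _ MvPolynomial.degrees_map_le

theorem Dependent.trans {p q g : ℕ} (y : Fin p → ℂ → ℂ) (u : Fin q → Polynomial ℂ) (w : Polynomial ℂ)
    (ξ : Fin g → ℂ) (F F' : Type) [Field F] [NumberField F] [Field F'] [NumberField F'] (ι : F →+* ℂ)
    (ι' : F' →+* ℂ) (e : F ≃+* F') (he : ∀ t, ι' (e t) = ι t) (d : ℕ) (A B T : ℝ) (t : F)
    (h : Dependent y u w ξ F ι d A B T t) : Dependent y u w ξ F' ι' d A B T (e t) := by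
  obtain ⟨P, h1, h2, h3, e₀, h4, h5⟩ := h
  set f : 𝓞 F →+* 𝓞 F' := (RingOfIntegers.mapRingEquiv e : 𝓞 F →+* 𝓞 F') with hf
  have hcomp : (coefficient F' ι' (fun _ => u) (fun _ => w) ξ (fun _ : Fin 1 => e t)).comp
      (MvPolynomial.map f) = coefficient F ι (fun _ => u) (fun _ => w) ξ (fun _ : Fin 1 => t) := by
    apply MvPolynomial.ringHom_ext
    · intro r
      simp only [coefficient, RingHom.comp_apply, MvPolynomial.map_C, MvPolynomial.eval₂Hom_C]
      exact he _
    · intro v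
      simp only [coefficient, RingHom.comp_apply, MvPolynomial.map_X, MvPolynomial.eval₂Hom_X', he]
  have hc : ∀ c, coefficient F' ι' (fun _ => u) (fun _ => w) ξ (fun _ : Fin 1 => e t)
      (MvPolynomial.map f c) = coefficient F ι (fun _ => u) (fun _ => w) ξ (fun _ : Fin 1 => t) c :=
    fun c => RingHom.congr_fun hcomp c
  refine ⟨MvPolynomial.map (MvPolynomial.map f) P, fun x => (degreeOf_map _ P x).trans (h1 x),
    fun s v => ?_, fun s s' φ => ?_, e₀, ?_, ?_⟩
  · rw [MvPolynomial.coeff_map]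
    exact (degreeOf_map _ _ v).trans (h2 s v)
  · rw [MvPolynomial.coeff_map, MvPolynomial.coeff_map]
    exact h3 s s' (φ.comp (e : F →+* F'))
  · rwa [MvPolynomial.coeff_map, hc]
  · rw [MvPolynomial.coeff_map, hc, MvPolynomial.eval₂_map, hcomp, he]
    exact h5

theorem Dependent.level {p q g : ℕ} (y : Fin p → ℂ → ℂ) (u : Fin q → Polynomial ℂ) (w : Polynomial ℂ)
    (ξ : Fin g → ℂ) (F : Type) [Field F] [NumberField F] (ι : F →+* ℂ) (d : ℕ) (A B B' T T' : ℝ)
    (t : F) (hA : 0 ≤ A) (h1 : 1 ≤ T) (h2 : T ≤ T') (h3 : T' ≤ T ^ 2) (h4 : 2 * |B'| ≤ B)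
    (h : Dependent y u w ξ F ι d A B T t) : Dependent y u w ξ F ι d A B' T' t := by
  obtain ⟨h5, h6⟩ := Pool.Agent.X39.Near.rpow_levels hA h1 h2 h3 h4
  obtain ⟨P, p1, p2, p3, e₀, p4, p5⟩ := h
  exact ⟨P, p1, p2, fun e s φ => (p3 e s φ).trans h5, e₀, p4,
    p5.trans (mul_le_mul_of_nonneg_right h6 (norm_nonneg _))⟩

/-- **Theorem.** Let `Ω` be open and connected, `y_i` (`i < p`) holomorphic on `Ω`, algebraic, not
constant, `y_i` not in `ℚ y_k + ℚ` for `i ≠ k`, without poles of `Γ(y_i)` on `Ω`; let `u_k`, `w` be complex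
polynomials, `w` without zeros on `Ω`, and `ξ_1, …, ξ_g` complex numbers. There is a set `E` of complex
numbers of Hausdorff dimension `0` such that: (1) for all `x ∈ Ω` outside `E`, all number fields `F` with
an embedding `ι` in `ℂ`, all `d`, `A` and `ω > 0` there are `B`, `T₁` such that for all `T ≥ T₁` and all
`t ∈ F`, quotients of integers with conjugates at most `T`, with `|ι t - x| ≤ T ^ (-ω)`, the numbers
`Γ(y_i(t))` are not dependent; (2) for all irrational real `x ∈ Ω` outside `E` and all `d`, `A` there is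
`B` such that the numbers `Γ(y_i(t))` at the convergents `t` of `x` are not dependent over `ℚ`, at the
level of the denominator, from some point on. -/
theorem result {p q g : ℕ} (Ω : Set ℂ) (hΩ : IsOpen Ω) (hΩc : IsPreconnected Ω)
    (y : Fin p → ℂ → ℂ) (hy : ∀ i, DifferentiableOn ℂ (y i) Ω)
    (halg : ∀ i, ∃ Q : Polynomial (Polynomial ℂ), Q ≠ 0 ∧ ∀ t ∈ Ω, Q.evalEval t (y i t) = 0)
    (hnc : ∀ i, ∀ v : ℂ, ¬ ∀ t ∈ Ω, y i t = v)
    (hH : ∀ i k, i ≠ k → ∀ a b : ℚ, ¬ ∀ t ∈ Ω, y i t = a * y k t + b)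
    (hp : ∀ t ∈ Ω, ∀ i, ∀ l : ℕ, y i t ≠ -l)
    (u : Fin q → Polynomial ℂ) (w : Polynomial ℂ) (hw : ∀ t ∈ Ω, w.eval t ≠ 0) (ξ : Fin g → ℂ) :
    ∃ E : Set ℂ, dimH E = 0 ∧
      (∀ x ∈ Ω, x ∉ E → ∀ (F : Type) [Field F] [NumberField F] (ι : F →+* ℂ)
        (d A : ℕ) (ω : ℝ), 0 < ω → ∃ B T₁ : ℝ, ∀ T : ℝ, T₁ ≤ T → ∀ t : F, Size F T t →
          ‖ι t - x‖ ≤ T ^ (-ω) → ¬ Dependent y u w ξ F ι d A B T t) ∧
      ∀ x : ℝ, Irrational x → (x : ℂ) ∈ Ω → (x : ℂ) ∉ E → ∀ d A : ℕ, ∃ (B : ℝ) (n₀ : ℕ), ∀ k : ℕ,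
        n₀ ≤ k → ¬ Dependent y u w ξ ℚ (algebraMap ℚ ℂ) d A B (x.convergent k).den
          (x.convergent k) := by
  have hlev := fun (F : Type) [Field F] [NumberField F] (ι : F →+* ℂ) (d : ℕ) (A B B' T T' : ℝ)
    (t : F) => Dependent.level y u w ξ F ι d A B B' T T' t
  obtain ⟨E, h1, h2⟩ := Pool.Agent.X39.Near.zero_dim Ω hΩ (fun F _ _ => Dependent y u w ξ F)
    (fun F F' _ _ _ _ ι ι' e he d A B T t => Dependent.trans y u w ξ F F' ι ι' e he d A B T t)
    (fun F _ _ ι d A B B' T T' t => hlev F ι d A B B' T T' t) (by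
      intro K hK hKΩ m d A ε hA hε
      obtain ⟨B, C, T₀, h⟩ := AlgebraicCurves.result m 1 p q g d (fun _ => Ω) (fun _ => hΩ)
        (fun _ => hΩc) (fun _ => y) (fun _ => hy) (fun _ => halg) (fun _ => hnc) (fun _ => hH)
        (fun _ => K) (fun _ => hK) (fun _ => hKΩ) (fun _ t ht => hp t (hKΩ ht)) (fun _ => u)
        (fun _ => w) (fun _ t ht => hw t (hKΩ ht)) A ε hε
      refine ⟨B, C, T₀, fun F _ _ hF ι T hT => ?_⟩
      obtain ⟨h3, h4⟩ := h F hF ι ξ T hT
      rw [Nat.sub_self, pow_zero, mul_one] at h4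
      obtain ⟨h5, h6⟩ := Pool.Agent.X39.Near.tuples_count
        (S := {t : F | ι t ∈ K ∧ Size F T t ∧ Dependent y u w ξ F ι d A B T t})
        (fun t ht => (by
          obtain ⟨h7, h8, h9⟩ := ht
          exact ⟨fun _ => ⟨h7, h8⟩, h9⟩ : (fun _ => t) ∈ AlgebraicCurves.Exceptional F ι d
            (fun _ => y) (fun _ => u) (fun _ => w) ξ (fun _ => K) A B T)) h3
      exact ⟨h5, le_trans (by exact_mod_cast h6) h4⟩)
  exact ⟨E, h1, h2, fun x hx hxU hxE d A => Pool.Agent.X39.Near.conv_zero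
    (fun F _ _ => Dependent y u w ξ F) (fun F _ _ ι d A B B' T T' t => hlev F ι d A B B' T T' t)
    h2 hx hxU hxE d A⟩

end Pool.Agent.Results.MP_26ad15_nt.ApproximationsOfAllNumbers
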