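import Pool.Agent.Results.MP_26ad15_nt.AlgebraicCurves
import Pool.Agent.X174.MasterTup

/-!
# Values of the Gamma function at the points of algebraic curves, at ALL simultaneous approximations of `n` numbers

Let `z_ji = y_ji(t_j)`, `i < p`, `j < n`, where the `y_ji` are algebraic functions of `t_j` such that for each `j` no `y_ji` is
constant or in `ℚ y_jk + ℚ`, `k ≠ i` (condition (H) for the curve), for instance `y_ji(t) = α_ji t + γ_ji`. For every `ω > 0`
there is ONE set `E ⊂ ℂ^n` of Hausdorff dimension at most `2 m (n - 1) / ω` such that for all `x ∈ ℂ^n` outside `E`, all number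
fields `F ⊂ ℂ` of degree at most `m`, all `d` and `A` there are `B` and `T₁` such that for all `T ≥ T₁` and ALL simultaneous
approximations `t ∈ F^n` of `x`, of height at most `T`, with `|t_j - x_j| ≤ T ^ (-ω)` for all `j`, the `n p` numbers
`Γ(z_ji)` satisfy no relation of degree at most `d` with coefficients which are polynomials of degree at most `d` in the
`u_jk(t_j) / w_j(t_j)` (for rational `y_ji` for instance in the numbers `z_ji` themselves) and in given complex numbers `ξ_s`,
with coefficients in `F` of height at most `T ^ A`, not even up to `T ^ (-B)`. For `ω > 2 m (n - 1) / n` almost all real `x`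
are outside `E`. Some exceptions are unavoidable for `n ≥ 2`: `x_1 = x_2` and `t_1 = t_2`, where condition (H) fails.

The case `n = 1` is the result `ApproximationsOfAllNumbers`; the functions are those of the starting result
`AlgebraicCurves`, which counts the exceptional `n`-tuples.
-/

set_option autoImplicit false

open MeasureTheory NumberField

namespace Pool.Agent.Results.MP_26ad15_nt.SimultaneousApproximations

open Pool.Agent.X39.Near (Size)
open Pool.Agent.X174.NearTup (DependentT coefAtT)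

/-- **Theorem.** Let `n ≥ 1`, `m` be natural numbers; for each `j < n` let `Ω_j` be open and connected, `y_ji` (`i < p`)
holomorphic on `Ω_j`, algebraic, not constant, `y_ji` not in `ℚ y_jk + ℚ` for `i ≠ k`, without poles of `Γ(y_ji)` on `Ω_j`;
let `u_jk`, `w_j` be complex polynomials, `w_j` without zeros on `Ω_j`, `ξ_1, …, ξ_g` complex numbers and `ω > 0`. There is a
set `E ⊂ ℂ^n` of Hausdorff dimension at most `2 m (n - 1) / ω`, which contains almost no real point if `2 m (n - 1) < n ω`,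
such that for all `x` outside `E` with `x_j ∈ Ω_j`, all number fields `F` of degree at most `m` with an embedding `ι` in `ℂ`
and all `d`, `A` there are `B`, `T₁` such that for all `T ≥ T₁` and all `t ∈ F^n`, quotients of integers with conjugates at
most `T`, with `|ι t_j - x_j| ≤ T ^ (-ω)` for all `j`, the `n p` numbers `Γ(y_ji(t_j))` are not dependent. -/
theorem result {n p q g : ℕ} (hn : 1 ≤ n) (m : ℕ) (Ω : Fin n → Set ℂ) (hΩ : ∀ j, IsOpen (Ω j))
    (hΩc : ∀ j, IsPreconnected (Ω j)) (y : Fin n → Fin p → ℂ → ℂ) (hy : ∀ j i, DifferentiableOn ℂ (y j i) (Ω j))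
    (halg : ∀ j i, ∃ Q : Polynomial (Polynomial ℂ), Q ≠ 0 ∧ ∀ t ∈ Ω j, Q.evalEval t (y j i t) = 0)
    (hnc : ∀ j i, ∀ v : ℂ, ¬ ∀ t ∈ Ω j, y j i t = v)
    (hH : ∀ j i k, i ≠ k → ∀ a b : ℚ, ¬ ∀ t ∈ Ω j, y j i t = a * y j k t + b)
    (hp : ∀ j, ∀ t ∈ Ω j, ∀ i, ∀ l : ℕ, y j i t ≠ -l)
    (u : Fin n → Fin q → Polynomial ℂ) (w : Fin n → Polynomial ℂ) (hw : ∀ j, ∀ t ∈ Ω j, (w j).eval t ≠ 0)
    (ξ : Fin g → ℂ) (ω : ℝ) (hω : 0 < ω) :
    ∃ E : Set (Fin n → ℂ), dimH E ≤ ENNReal.ofReal (2 * m * ((n : ℝ) - 1) / ω) ∧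
      (2 * m * ((n : ℝ) - 1) < n * ω → ∀ᵐ x : Fin n → ℝ, (fun j => (x j : ℂ)) ∉ E) ∧
      ∀ x : Fin n → ℂ, (∀ j, x j ∈ Ω j) → x ∉ E → ∀ (F : Type) [Field F] [NumberField F],
        Module.finrank ℚ F ≤ m → ∀ (ι : F →+* ℂ) (d A : ℕ), ∃ B T₁ : ℝ, ∀ T : ℝ, T₁ ≤ T → ∀ t : Fin n → F,
          (∀ j, Size F T (t j)) → (∀ j, ‖ι (t j) - x j‖ ≤ T ^ (-ω)) →
            ¬ DependentT (fun j i z => Complex.Gamma (y j i z)) u w ξ F ι d A B T t :=
  Pool.Agent.X174.NearTup.masterTup hn m Ω hΩ (fun j i z => Complex.Gamma (y j i z))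
    (fun j i t ht => by
      have h1 : DifferentiableOn ℂ (fun t => (Complex.Gamma (y j i t))⁻¹) (Ω j) := Pool.Agent.Y549.GM.diff_rg (hy j i)
      have h2 : AnalyticAt ℂ (fun t => (Complex.Gamma (y j i t))⁻¹) t := h1.analyticAt ((hΩ j).mem_nhds ht)
      have h3 := h2.inv (inv_ne_zero (Complex.Gamma_ne_zero (hp j t ht i)))
      have h4 : (fun t => (Complex.Gamma (y j i t))⁻¹)⁻¹ = fun t => Complex.Gamma (y j i t) := by
        funext z
        simp
      rwa [h4] at h3)
    (fun j t ht => Pool.Agent.Y549.GM.locInd (Ω j) (hΩ j) (hΩc j) (y j) (hy j) (halg j) (hnc j) (hH j) t ht (hp j t ht))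
    u w hw ξ hω

end Pool.Agent.Results.MP_26ad15_nt.SimultaneousApproximations
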